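import Mathlib

set_option autoImplicit false

/-!
The counting inequality: among the translates of `L`, one contains at least the proportion
`μ L / μ (A + L)` of the weight of a finite set `A`.
-/

namespace Pool.Agent.H2R2.Cov

open MeasureTheory Module
open scoped Pointwise

section Count

variable {E : Type*} [NormedAddCommGroup E] [NormedSpace ℝ E] [FiniteDimensional ℝ E]
  [MeasurableSpace E] [BorelSpace E] (μ : Measure E) [μ.IsAddHaarMeasure]

/-- The weight of the points of `A` in the translate `t + L`. -/
noncomputable def wt (A : Finset E) (w : E → ℝ) (L : Set E) (t : E) : ℝ :=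
  open Classical in ∑ x ∈ A, if x - t ∈ L then w x else 0

omit [NormedSpace ℝ E] [FiniteDimensional ℝ E] [MeasurableSpace E] [BorelSpace E] in
theorem exists_max_wt (A : Finset E) (w : E → ℝ) (L : Set E) :
    ∃ t₀ : E, ∀ t, wt A w L t ≤ wt A w L t₀ := by
  classical
  have hfin : (Set.range (wt A w L)).Finite := by
    refine Set.Finite.subset
      (Finset.finite_toSet (A.powerset.image (fun B => ∑ x ∈ B, w x))) ?_
    rintro _ ⟨t, rfl⟩
    simp only [Finset.coe_image, Set.mem_image, Finset.mem_coe, Finset.mem_powerset]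
    refine ⟨A.filter (fun x => x - t ∈ L), Finset.filter_subset _ _, ?_⟩
    rw [Finset.sum_filter]
    unfold wt
    congr!
  obtain ⟨q, ⟨t₀, rfl⟩, hq⟩ := Set.exists_max_image (Set.range (wt A w L)) id hfin
    (Set.range_nonempty _)
  exact ⟨t₀, fun t => hq _ ⟨t, rfl⟩⟩

/-- indicator of `x + L` -/
noncomputable def fx (L : Set E) (x : E) (z : E) : ℝ := L.indicator (fun _ => (1 : ℝ)) (z - x)

omit [NormedSpace ℝ E] [FiniteDimensional ℝ E] [MeasurableSpace E] [BorelSpace E] in
theorem fx_nonneg (L : Set E) (x z : E) : 0 ≤ fx L x z := by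
  unfold fx
  exact Set.indicator_nonneg (fun _ _ => zero_le_one) _

omit [NormedSpace ℝ E] [FiniteDimensional ℝ E] [MeasurableSpace E] [BorelSpace E] in
theorem fx_le_one (L : Set E) (x z : E) : fx L x z ≤ 1 := by
  unfold fx
  exact Set.indicator_le_self' (fun _ _ => zero_le_one) _

theorem fx_integrable (L : Set E) (hL : MeasurableSet L) (hLf : μ L ≠ ⊤) (x : E) :
    Integrable (fx L x) μ := by
  have h : Integrable (L.indicator (fun _ => (1 : ℝ))) μ := by
    rw [integrable_indicator_iff hL]
    exact integrableOn_const hLf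
  exact h.comp_sub_right x

theorem fx_integral (L : Set E) (hL : MeasurableSet L) (x : E) :
    ∫ z, fx L x z ∂μ = μ.real L := by
  unfold fx
  rw [integral_sub_right_eq_self (fun z => L.indicator (fun _ => (1 : ℝ)) z) x,
    integral_indicator_const _ hL]
  simp

theorem fx_mul_integrable (L : Set E) (hL : MeasurableSet L) (hLf : μ L ≠ ⊤) (x y : E) :
    Integrable (fun z => fx L x z * fx L y z) μ := by
  refine (fx_integrable μ L hL hLf x).mono ?_ ?_
  · exact ((fx_integrable μ L hL hLf x).aestronglyMeasurable).mul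
      (fx_integrable μ L hL hLf y).aestronglyMeasurable
  · refine Filter.Eventually.of_forall fun z => ?_
    rw [Real.norm_of_nonneg (mul_nonneg (fx_nonneg _ _ _) (fx_nonneg _ _ _)),
      Real.norm_of_nonneg (fx_nonneg _ _ _)]
    exact mul_le_of_le_one_right (fx_nonneg _ _ _) (fx_le_one _ _ _)

/-- **Counting inequality.** -/
theorem exists_translate (A : Finset E) (w : E → ℝ) (hw : ∀ x ∈ A, 0 ≤ w x) (L M : Set E)
    (hL : MeasurableSet L) (hM : MeasurableSet M) (hL0 : μ L ≠ 0) (hLf : μ L ≠ ⊤) (hMf : μ M ≠ ⊤)
    (hLM : ∀ x ∈ A, ∀ y ∈ L, x + y ∈ M) :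
    ∃ t : E, (∑ x ∈ A, w x) * μ.real L ≤ wt A w L t * μ.real M := by
  classical
  obtain ⟨t₀, ht₀⟩ := exists_max_wt A w L
  refine ⟨t₀, ?_⟩
  set q := wt A w L t₀ with hq
  set W := ∑ x ∈ A, w x with hW
  have hW0 : 0 ≤ W := Finset.sum_nonneg hw
  have hLr : 0 < μ.real L := ENNReal.toReal_pos hL0 hLf
  -- the function g
  set g : E → ℝ := fun z => ∑ x ∈ A, w x * fx L x z with hg
  have hgi : Integrable g μ := by
    refine integrable_finsetSum _ fun x _ => ?_
    exact (fx_integrable μ L hL hLf x).const_mul _
  have hgint : ∫ z, g z ∂μ = W * μ.real L := by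
    rw [hg, integral_finsetSum _ (fun x _ => (fx_integrable μ L hL hLf x).const_mul _)]
    rw [hW, Finset.sum_mul]
    refine Finset.sum_congr rfl fun x _ => ?_
    rw [integral_const_mul, fx_integral μ L hL x]
  have hg0 : ∀ z, z ∉ M → g z = 0 := by
    intro z hz
    refine Finset.sum_eq_zero fun x hx => ?_
    have : z - x ∉ L := by
      intro h
      have := hLM x hx _ h
      rw [add_sub_cancel] at this
      exact hz this
    rw [fx, Set.indicator_of_notMem this, mul_zero]
  have hgM : ∫ z in M, g z ∂μ = W * μ.real L := by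
    rw [← hgint]
    exact setIntegral_eq_integral_of_forall_compl_eq_zero hg0
  -- g²
  have hg2e : ∀ z, g z ^ 2 = ∑ x' ∈ A, ∑ x ∈ A, w x' * (w x * (fx L x z * fx L x' z)) := by
    intro z
    rw [sq, hg]
    simp only
    rw [Finset.sum_mul_sum, Finset.sum_comm]
    refine Finset.sum_congr rfl fun x _ => Finset.sum_congr rfl fun y _ => ?_
    ring
  have hg2i : Integrable (fun z => g z ^ 2) μ := by
    simp_rw [hg2e]
    refine integrable_finsetSum _ fun x' _ => integrable_finsetSum _ fun x _ => ?_
    exact ((fx_mul_integrable μ L hL hLf x x').const_mul _).const_mul _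
  have hshift : ∀ x x' : E, ∫ z, fx L x z * fx L x' z ∂μ
      = ∫ y, L.indicator (fun _ => (1 : ℝ)) y * L.indicator (fun _ => (1 : ℝ)) (x - (x' - y)) ∂μ := by
    intro x x'
    rw [← integral_add_right_eq_self (fun z => fx L x z * fx L x' z) x]
    congr 1
    ext y
    unfold fx
    congr 2
    · abel
    · abel
  have hind_int : ∀ x x' : E, Integrable (fun y => L.indicator (fun _ => (1 : ℝ)) y *
      L.indicator (fun _ => (1 : ℝ)) (x - (x' - y))) μ := by
    intro x x'
    have h := (fx_mul_integrable μ L hL hLf x x').comp_add_right x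
    refine h.congr (Filter.Eventually.of_forall fun y => ?_)
    simp only [fx]
    congr 2
    · abel
    · abel
  have hg2 : ∫ z, g z ^ 2 ∂μ ≤ W * (q * μ.real L) := by
    simp_rw [hg2e]
    rw [integral_finsetSum _ (fun x' _ => integrable_finsetSum _ fun x _ =>
      ((fx_mul_integrable μ L hL hLf x x').const_mul _).const_mul _)]
    rw [hW, Finset.sum_mul]
    refine Finset.sum_le_sum fun x' hx' => ?_
    have e1 : ∫ z, ∑ x ∈ A, w x' * (w x * (fx L x z * fx L x' z)) ∂μ
        = w x' * ∫ y, L.indicator (fun _ => (1 : ℝ)) y * wt A w L (x' - y) ∂μ := by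
      rw [integral_finsetSum _ (fun x _ =>
        ((fx_mul_integrable μ L hL hLf x x').const_mul _).const_mul _)]
      simp_rw [integral_const_mul, hshift]
      rw [← Finset.mul_sum]
      congr 1
      simp_rw [← integral_const_mul]
      rw [← integral_finsetSum _ (fun x _ => (hind_int x x').const_mul _)]
      congr 1
      ext y
      unfold wt
      rw [Finset.mul_sum]
      refine Finset.sum_congr rfl fun x _ => ?_
      by_cases h : x - (x' - y) ∈ L
      · rw [Set.indicator_of_mem h, if_pos h]; ring
      · rw [Set.indicator_of_notMem h, if_neg h]; ring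
    rw [e1]
    refine mul_le_mul_of_nonneg_left ?_ (hw x' hx')
    have e2 : q * μ.real L = ∫ y, L.indicator (fun _ => (1 : ℝ)) y * q ∂μ := by
      rw [integral_mul_const, integral_indicator_const _ hL]
      simp [mul_comm]
    rw [e2]
    refine integral_mono_of_nonneg ?_ ?_ ?_
    · refine Filter.Eventually.of_forall fun y => ?_
      refine mul_nonneg (Set.indicator_nonneg (fun _ _ => zero_le_one) _) ?_
      unfold wt
      refine Finset.sum_nonneg fun x hx => ?_
      split_ifs
      · exact hw x hx
      · exact le_rfl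
    · refine Integrable.mul_const ?_ _
      rw [integrable_indicator_iff hL]
      exact integrableOn_const hLf
    · refine Filter.Eventually.of_forall fun y => ?_
      exact mul_le_mul_of_nonneg_left (ht₀ _) (Set.indicator_nonneg (fun _ _ => zero_le_one) _)
  have hg2M : ∫ z in M, g z ^ 2 ∂μ ≤ W * (q * μ.real L) := by
    refine le_trans ?_ hg2
    exact setIntegral_le_integral hg2i (Filter.Eventually.of_forall fun z => sq_nonneg _)
  -- Cauchy-Schwarz
  rcases eq_or_lt_of_le hW0 with hW1 | hW1
  · rw [← hW1, zero_mul]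
    refine mul_nonneg ?_ measureReal_nonneg
    rw [hq]
    unfold wt
    refine Finset.sum_nonneg fun x hx => ?_
    split_ifs
    · exact hw x hx
    · exact le_rfl
  have hne : A.Nonempty := by
    rw [Finset.nonempty_iff_ne_empty]
    rintro rfl
    simp [hW] at hW1
  obtain ⟨x₀, hx₀⟩ := hne
  have hMr : 0 < μ.real M := by
    have h1 : μ L ≤ μ M := by
      calc μ L = μ ((fun y => x₀ + y) '' L) := by
            rw [Set.image_add_left, measure_preimage_add]
        _ ≤ μ M := by
            refine measure_mono ?_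
            rintro _ ⟨y, hy, rfl⟩
            exact hLM x₀ hx₀ y hy
    refine ENNReal.toReal_pos ?_ hMf
    intro h
    rw [h] at h1
    exact hL0 (le_antisymm h1 bot_le)
  set c := W * μ.real L / μ.real M with hc
  have hCS : 2 * c * (W * μ.real L) - c ^ 2 * μ.real M ≤ ∫ z in M, g z ^ 2 ∂μ := by
    have e3 : 2 * c * (W * μ.real L) - c ^ 2 * μ.real M = ∫ z in M, (2 * c * g z - c ^ 2) ∂μ := by
      rw [integral_sub (hgi.integrableOn.const_mul _) (integrableOn_const hMf), integral_const_mul,
        hgM]
      simp [mul_comm]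
    rw [e3]
    refine integral_mono ((hgi.integrableOn.const_mul _).sub (integrableOn_const hMf))
      hg2i.integrableOn fun z => ?_
    simp only
    nlinarith [sq_nonneg (g z - c)]
  have e4 : 2 * c * (W * μ.real L) - c ^ 2 * μ.real M = c * (W * μ.real L) := by
    have : c * μ.real M = W * μ.real L := by
      rw [hc]; field_simp
    have h' : c ^ 2 * μ.real M = c * (W * μ.real L) := by
      rw [sq, mul_assoc, this]
    rw [h']; ring
  have h5 : c * (W * μ.real L) ≤ W * (q * μ.real L) := by
    rw [← e4]; exact hCS.trans hg2M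
  have h6 : c ≤ q := by
    have : c * (W * μ.real L) ≤ q * (W * μ.real L) := by
      calc c * (W * μ.real L) ≤ W * (q * μ.real L) := h5
        _ = q * (W * μ.real L) := by ring
    exact le_of_mul_le_mul_right this (by positivity)
  rw [hc, div_le_iff₀ hMr] at h6
  exact h6

end Count

end Pool.Agent.H2R2.Cov
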