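import Mathlib
import Pool.Agent.H2R2.Cov1
import Pool.Agent.H815R2.HadCover

set_option autoImplicit false

/-!
Covering a convex body by translates of its interior.
-/

namespace Pool.Agent.H2R2.Cov

open MeasureTheory Module
open scoped Pointwise

section Geo

variable {E : Type*} [NormedAddCommGroup E] [NormedSpace ℝ E] [FiniteDimensional ℝ E]

/-- A convex body contains a translate of `-K / d` (Minkowski, Radon), by Helly's theorem. -/
theorem exists_reflect (K : Set E) (hK : Convex ℝ K) (hKc : IsCompact K)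
    (hKi : (interior K).Nonempty) (hd : 1 ≤ finrank ℝ E) :
    ∃ c : E, ∀ x ∈ K, ∃ y ∈ K, -x = (finrank ℝ E : ℝ) • y - ((finrank ℝ E : ℝ) + 1) • c := by
  classical
  set d := finrank ℝ E with hdd
  have hd0 : (0 : ℝ) < d := by exact_mod_cast hd
  haveI : Nontrivial E := Module.nontrivial_of_finrank_pos (R := ℝ) (by omega)
  have hinf : K.Infinite := by
    obtain ⟨x, hx⟩ := hKi
    haveI : (nhdsWithin x {x}ᶜ).NeBot := Module.punctured_nhds_neBot ℝ E x
    exact infinite_of_mem_nhds x (mem_interior_iff_mem_nhds.mp hx)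
  haveI : Infinite K := hinf.to_subtype
  let F : K → Set E := fun x => (fun y => ((d : ℝ) + 1)⁻¹ • ((x : E) + (d : ℝ) • y)) '' K
  have hne : (⋂ i, F i).Nonempty := by
    refine Convex.helly_theorem_compact (𝕜 := ℝ) (F := F) ?_ ?_ ?_ ?_
    · rw [ENat.card_eq_top_of_infinite]; exact le_top
    · intro x
      have h1 : F x = ((d : ℝ) + 1)⁻¹ • ((fun y => (x : E) + y) '' ((d : ℝ) • K)) := by
        ext z
        simp only [F, Set.mem_image, Set.mem_smul_set]
        constructor
        · rintro ⟨y, hy, rfl⟩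
          exact ⟨_, ⟨_, ⟨y, hy, rfl⟩, rfl⟩, rfl⟩
        · rintro ⟨_, ⟨_, ⟨y, hy, rfl⟩, rfl⟩, rfl⟩
          exact ⟨y, hy, rfl⟩
      rw [h1]
      exact ((hK.smul _).translate _).smul _
    · intro x
      refine hKc.image ?_
      fun_prop
    · intro I hI
      refine ⟨((d : ℝ) + 1)⁻¹ • ∑ i ∈ I, (i : E), ?_⟩
      rw [Set.mem_iInter₂]
      intro j hj
      refine ⟨∑ i ∈ I.erase j, (d : ℝ)⁻¹ • (i : E), ?_, ?_⟩
      · refine hK.sum_mem (fun _ _ => by positivity) ?_ (fun i _ => i.2)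
        rw [Finset.sum_const, Finset.card_erase_of_mem hj, hI, Nat.add_sub_cancel, nsmul_eq_mul]
        exact mul_inv_cancel₀ hd0.ne'
      · simp only
        congr 1
        rw [← Finset.smul_sum, smul_smul, mul_inv_cancel₀ hd0.ne', one_smul,
          Finset.add_sum_erase I (fun i : K => (i : E)) hj]
  obtain ⟨c, hc⟩ := hne
  refine ⟨c, fun x hx => ?_⟩
  rw [Set.mem_iInter] at hc
  obtain ⟨y, hy, hyc⟩ := hc ⟨x, hx⟩
  refine ⟨y, hy, ?_⟩
  simp only at hyc
  rw [← hyc, smul_smul, mul_inv_cancel₀ (by positivity : (d : ℝ) + 1 ≠ 0), one_smul]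
  abel

/-- Among the translates of `l K` one contains a share `(l / (1 + l)) ^ d` of the weight of a
finite subset of `K`. -/
theorem exists_heavy (K : Set E) (hK : Convex ℝ K) (hKc : IsCompact K)
    (hKi : (interior K).Nonempty) (A : Finset E) (hA : ∀ x ∈ A, x ∈ K) (w : E → ℝ)
    (hw : ∀ x ∈ A, 0 ≤ w x) (l : ℝ) (hl : 0 < l) :
    ∃ t : E, (l / (1 + l)) ^ finrank ℝ E * ∑ x ∈ A, w x ≤ wt A w (l • K) t := by
  borelize E
  let μ : Measure E := Measure.addHaar
  have hKm : MeasurableSet K := hKc.isClosed.measurableSet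
  have hμ0 : μ K ≠ 0 := fun h => by
    have := isOpen_interior.measure_pos μ hKi
    have h2 : μ (interior K) ≤ μ K := measure_mono interior_subset
    rw [h] at h2
    exact absurd this (not_lt.mpr h2)
  have hμf : μ K ≠ ⊤ := hKc.measure_lt_top.ne
  have hvol : ∀ r : ℝ, 0 < r → μ (r • K) = ENNReal.ofReal (r ^ finrank ℝ E) * μ K := by
    intro r hr
    rw [Measure.addHaar_smul, abs_of_nonneg (by positivity)]
  have hL0 : μ (l • K) ≠ 0 := by
    rw [hvol l hl]
    exact mul_ne_zero (by simpa using pow_pos hl _) hμ0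
  have hLf : μ (l • K) ≠ ⊤ := (hKc.smul l).measure_lt_top.ne
  have hMf : μ ((1 + l) • K) ≠ ⊤ := (hKc.smul (1 + l)).measure_lt_top.ne
  obtain ⟨t, ht⟩ := exists_translate μ A w hw (l • K) ((1 + l) • K)
    (hKc.smul l).isClosed.measurableSet (hKc.smul (1 + l)).isClosed.measurableSet hL0 hLf hMf
    (by
      intro x hx y hy
      obtain ⟨k, hk, rfl⟩ := hy
      have h1 := hK (hA x hx) hk (show (0 : ℝ) ≤ 1 / (1 + l) by positivity)
        (show (0 : ℝ) ≤ l / (1 + l) by positivity) (by field_simp)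
      refine ⟨_, h1, ?_⟩
      simp only [smul_add, smul_smul]
      rw [mul_one_div_cancel (by positivity : (1 + l) ≠ 0), one_smul,
        mul_div_cancel₀ _ (by positivity : (1 + l) ≠ 0)])
  refine ⟨t, ?_⟩
  have e1 : μ.real (l • K) = l ^ finrank ℝ E * μ.real K := by
    rw [measureReal_def, hvol l hl, ENNReal.toReal_mul, ENNReal.toReal_ofReal (by positivity)]
    rfl
  have e2 : μ.real ((1 + l) • K) = (1 + l) ^ finrank ℝ E * μ.real K := by
    rw [measureReal_def, hvol (1 + l) (by positivity), ENNReal.toReal_mul,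
      ENNReal.toReal_ofReal (by positivity)]
    rfl
  rw [e1, e2] at ht
  have hKr : 0 < μ.real K := ENNReal.toReal_pos hμ0 hμf
  have ht' : (∑ x ∈ A, w x) * l ^ finrank ℝ E ≤ wt A w (l • K) t * (1 + l) ^ finrank ℝ E := by
    refine le_of_mul_le_mul_right ?_ hKr
    linarith
  rw [div_pow, div_mul_eq_mul_div, div_le_iff₀ (by positivity)]
  linarith

omit [NormedSpace ℝ E] [FiniteDimensional ℝ E] in
theorem wt_one (A : Finset E) (L : Set E) (t : E) :
    wt A (fun _ => 1) L t = ((open Classical in A.filter (fun x => x - t ∈ L)).card : ℝ) := by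
  classical
  unfold wt
  rw [Finset.card_filter]
  push_cast
  congr!

/-- A net. -/
theorem exists_net (K : Set E) (hK : Convex ℝ K) (hKc : IsCompact K)
    (hKi : (interior K).Nonempty) (η : ℝ) (hη : 0 < η) :
    ∃ S : Finset E, (∀ x ∈ S, x ∈ K) ∧
      (∀ y ∈ K, ∃ x ∈ S, ∃ k ∈ K, ∃ k' ∈ K, y = x + η • (k - k')) ∧
      (S.card : ℝ) ≤ (1 + 1 / η) ^ finrank ℝ E := by
  classical
  let P : Finset E → Prop := fun S => (∀ s ∈ S, s ∈ K) ∧
    (∀ s ∈ S, ∀ t ∈ S, s ≠ t → ∀ k ∈ K, ∀ k' ∈ K, s ≠ t + η • (k - k'))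
  have hcardb : ∀ S, P S → (S.card : ℝ) ≤ (1 + 1 / η) ^ finrank ℝ E := by
    intro S hS
    obtain ⟨t, ht⟩ := exists_heavy K hK hKc hKi S hS.1 (fun _ => 1) (fun _ _ => zero_le_one) η hη
    rw [wt_one] at ht
    have h1 : (S.filter (fun x => x - t ∈ η • K)).card ≤ 1 := by
      rw [Finset.card_le_one]
      intro a ha b hb
      rw [Finset.mem_filter] at ha hb
      by_contra hne
      obtain ⟨k, hk, hk'⟩ := ha.2
      obtain ⟨m, hm, hm'⟩ := hb.2
      refine hS.2 a ha.1 b hb.1 hne k hk m hm ?_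
      simp only at hk' hm'
      rw [smul_sub, hk', hm']
      abel
    have h2 : ((S.filter (fun x => x - t ∈ η • K)).card : ℝ) ≤ 1 := by exact_mod_cast h1
    have h3 := ht.trans h2
    rw [Finset.sum_const, nsmul_eq_mul, mul_one] at h3
    have h4 : (1 + 1 / η) = (η / (1 + η))⁻¹ := by field_simp; ring
    rw [h4, inv_pow, ← one_div, le_div_iff₀ (by positivity), mul_comm]
    exact h3
  let N : Set ℕ := {n | ∃ S, P S ∧ S.card = n}
  have hNne : N.Nonempty := ⟨0, ∅, ⟨by simp, by simp⟩, rfl⟩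
  have hNb : BddAbove N := by
    refine ⟨⌊(1 + 1 / η) ^ finrank ℝ E⌋₊, ?_⟩
    rintro n ⟨S, hS, rfl⟩
    exact Nat.le_floor (hcardb S hS)
  obtain ⟨S, hS, hcard⟩ := Nat.sSup_mem hNne hNb
  refine ⟨S, hS.1, ?_, hcardb S hS⟩
  intro x hx
  by_contra hcon
  push Not at hcon
  have hxS : x ∉ S := by
    intro h
    have := hcon x h x hx x hx
    simp at this
  have hP : P (insert x S) := by
    constructor
    · intro s hs
      rcases Finset.mem_insert.mp hs with rfl | hs
      · exact hx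
      · exact hS.1 s hs
    · intro s hs t ht hne k hk k' hk'
      rcases Finset.mem_insert.mp hs with h1 | hs <;> rcases Finset.mem_insert.mp ht with h2 | ht
      · exact absurd (h1.trans h2.symm) hne
      · rw [h1]; exact hcon t ht k hk k' hk'
      · rw [h2]
        intro h
        refine hcon s hs k' hk' k hk ?_
        rw [h, smul_sub, smul_sub]
        abel
      · exact hS.2 s hs t ht hne k hk k' hk'
  have hle : (insert x S).card ≤ sSup N := le_csSup hNb ⟨_, hP, rfl⟩
  rw [Finset.card_insert_of_notMem hxS] at hle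
  omega

/-- The covering theorem with parameters. -/
theorem cover_param (K : Set E) (hK : Convex ℝ K) (hKc : IsCompact K)
    (hKi : (interior K).Nonempty) (hd : 1 ≤ finrank ℝ E) (l η : ℝ) (hl : 0 < l) (hη : 0 < η)
    (hρ : l + η + η * finrank ℝ E < 1) :
    ∃ T : Finset E, K ⊆ ⋃ t ∈ T, (fun x => t + x) '' interior K ∧
      (T.card : ℝ) ≤ 1 + (1 + 1 / l) ^ finrank ℝ E * (finrank ℝ E * Real.log (1 + 1 / η)) := by
  classical
  set d := finrank ℝ E with hdd
  have hd0 : (0 : ℝ) < d := by exact_mod_cast hd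
  obtain ⟨c, hc⟩ := exists_reflect K hK hKc hKi hd
  obtain ⟨S, hSK, hSnet, hScard⟩ := exists_net K hK hKc hKi η hη
  have hgreedy := Pool.Agent.H815R2.Had.greedy_cover (S := S) (E := E)
    (fun t s => (s : E) - t ∈ l • K) ((l / (1 + l)) ^ d) (by positivity)
    (pow_le_one₀ (by positivity) (by rw [div_le_one (by positivity)]; linarith))
    (by
      intro A _
      obtain ⟨t, ht⟩ := exists_heavy K hK hKc hKi (A.map (Function.Embedding.subtype _))
        (by
          intro x hx
          rw [Finset.mem_map] at hx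
          obtain ⟨a, _, rfl⟩ := hx
          exact hSK _ a.2) (fun _ => 1) (fun _ _ => zero_le_one) l hl
      refine ⟨t, ?_⟩
      rw [wt_one] at ht
      rw [Finset.sum_const, Finset.card_map, nsmul_eq_mul, mul_one] at ht
      refine ht.trans (le_of_eq ?_)
      rw [Finset.filter_map, Finset.card_map]
      norm_cast)
    ((1 + 1 / η) ^ d) (by
      rw [Fintype.card_coe]; exact hScard) (one_le_pow₀ (by
        have : 0 < 1 / η := by positivity
        linarith))
  obtain ⟨Y, hYcard, hY⟩ := hgreedy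
  obtain ⟨z₀, hz₀⟩ := hKi
  set ρ := l + η + η * d with hρdef
  have hρ0 : 0 < ρ := by positivity
  refine ⟨Y.image (fun t => t - (η * (d + 1)) • c - (1 - ρ) • z₀), ?_, ?_⟩
  · intro y hy
    obtain ⟨x, hxS, k, hk, k', hk', hyx⟩ := hSnet y hy
    obtain ⟨t, htY, ht⟩ := hY ⟨x, hxS⟩
    obtain ⟨k₁, hk₁, hk₁'⟩ := ht
    obtain ⟨k₂, hk₂, hk₂'⟩ := hc k' hk'
    simp only at hk₁'
    -- convex combination
    have hcomb : (l / ρ) • k₁ + (η / ρ) • k + (η * d / ρ) • k₂ ∈ K := by
      have h1 := hK.sum_mem (t := (Finset.univ : Finset (Fin 3)))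
        (w := ![l / ρ, η / ρ, η * d / ρ]) (z := ![k₁, k, k₂])
        (by intro i _; fin_cases i <;> simp <;> positivity)
        (by
          simp [Fin.sum_univ_three]
          field_simp
          rw [hρdef])
        (by intro i _; fin_cases i <;> simp [hk₁, hk, hk₂])
      simpa [Fin.sum_univ_three] using h1
    set k₃ := (l / ρ) • k₁ + (η / ρ) • k + (η * d / ρ) • k₂ with hk₃
    have hρk₃ : ρ • k₃ = l • k₁ + η • k + (η * d) • k₂ := by
      rw [hk₃]
      simp only [smul_add, smul_smul]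
      rw [mul_div_cancel₀ _ hρ0.ne', mul_div_cancel₀ _ hρ0.ne', mul_div_cancel₀ _ hρ0.ne']
    have hint : (1 - ρ) • z₀ + ρ • k₃ ∈ interior K := by
      refine hK.combo_interior_self_subset_interior (a := 1 - ρ) (b := ρ) (by linarith) hρ0.le
        (by ring) ?_
      exact Set.add_mem_add (Set.smul_mem_smul_set hz₀) (Set.smul_mem_smul_set hcomb)
    rw [Set.mem_iUnion₂]
    refine ⟨t - (η * (d + 1)) • c - (1 - ρ) • z₀, Finset.mem_image_of_mem _ htY,
      (1 - ρ) • z₀ + ρ • k₃, hint, ?_⟩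
    simp only
    have hx : x = t + l • k₁ := by rw [hk₁']; abel
    have hk'' : -(η • k') = (η * d) • k₂ - (η * (d + 1)) • c := by
      rw [← smul_neg, hk₂', smul_sub, smul_smul, smul_smul]
    rw [hyx, hx, hρk₃, smul_sub, sub_eq_add_neg (η • k), hk'']
    abel
  · refine le_trans (b := (Y.card : ℝ)) (by exact_mod_cast Finset.card_image_le) ?_
    refine hYcard.trans (le_of_eq ?_)
    rw [Real.log_pow, div_eq_mul_inv, ← inv_pow]
    have : (l / (1 + l))⁻¹ = 1 + 1 / l := by field_simp; ring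
    rw [this]
    ring

end Geo

end Pool.Agent.H2R2.Cov
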